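import Pool.Agent.W2helper61.PF.Stm

set_option autoImplicit false

namespace Pool.Agent.W2helper61.PF

open Pool.Agent.NPC Pool.Agent.H622R2 Pool.Agent.H620R2.Gauge Pool.Agent.W2helper61.RF

theorem run_cert (M : Alg) (A : Oracle) (x : List Bool) : ∀ (n : ℕ) (a : List Bool),
    ∃ Q : Finset (List Bool), Q.card ≤ n ∧ ∀ A' : Oracle, (∀ u ∈ Q, A' u = A u) →
      M.run A' x n a = M.run A x n a := by
  classical
  intro n
  induction n with
  | zero => exact fun a => ⟨∅, le_rfl, fun _ _ => rfl⟩
  | succ n ih =>
    intro a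
    rcases h : M.D (pairBits x a) with _ | ⟨_ | _, z⟩
    · exact ⟨∅, Nat.zero_le _, fun A' _ => by simp only [Alg.run, h]⟩
    · obtain ⟨Q, h1, h2⟩ := ih (a ++ [A z])
      refine ⟨insert z Q, (Finset.card_insert_le _ _).trans (Nat.succ_le_succ h1),
        fun A' hA' => ?_⟩
      simp only [Alg.run, h]
      rw [hA' z (Finset.mem_insert_self _ _)]
      exact h2 A' fun u hu => hA' u (Finset.mem_insert_of_mem hu)
    · exact ⟨∅, Nat.zero_le _, fun A' _ => by simp only [Alg.run, h]⟩

theorem acc_cert (M : Alg) : ∃ q : Polynomial ℕ, ∀ (A : Oracle) (x : List Bool),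
    ∃ Q : Finset (List Bool), Q.card ≤ q.eval x.length ∧
      (∀ u ∈ Q, u.length ≤ q.eval x.length) ∧ ∀ A' : Oracle, (∀ u ∈ Q, A' u = A u) →
      LH.acc M A' x = LH.acc M A x := by
  classical
  obtain ⟨qb, hqb⟩ := LH.acc_congr M
  refine ⟨M.p + qb, fun A x => ?_⟩
  obtain ⟨Q, h1, h2⟩ := run_cert M A x (M.p.eval x.length) []
  refine ⟨Q.filter fun u => u.length ≤ qb.eval x.length, ?_, ?_, fun A' hA' => ?_⟩
  · rw [Polynomial.eval_add]
    exact (Finset.card_filter_le _ _).trans (h1.trans (Nat.le_add_right _ _))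
  · intro u hu
    rw [Polynomial.eval_add]
    exact (Finset.mem_filter.mp hu).2.trans (Nat.le_add_left _ _)
  · let A'' : Oracle := fun u => if u.length ≤ qb.eval x.length then A' u else A u
    have e1 : LH.acc M A' x = LH.acc M A'' x := hqb _ _ _ fun q hq => by
      simp only [A'', if_pos hq]
    have e2 : LH.acc M A'' x = LH.acc M A x := by
      unfold LH.acc Alg.out
      rw [h2 A'' fun u hu => ?_]
      by_cases h : u.length ≤ qb.eval x.length
      · simp only [A'', if_pos h]
        exact hA' u (Finset.mem_filter.mpr ⟨hu, h⟩)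
      · simp only [A'', if_neg h]
    rw [e1, e2]

theorem size_le_num (n : ℕ) : n.size ≤ (num n).enc.length := by
  rw [enc_num, List.length_append]
  have h : ∀ l : List Bool, l.length ≤ (l.flatMap pre).length := by
    intro l
    induction l with
    | nil => simp
    | cons b l ih =>
      rw [List.flatMap_cons, List.length_append, List.length_cons]
      have : 1 ≤ (RF.pre b).length := by cases b <;> simp [RF.pre, Tm.enc]
      omega
  have h1 := h n.bits
  have h2 : n.bits.length = n.size := Nat.size_eq_bits_len n |>.symm ▸ rfl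
  omega

theorem base_cert {O : Oracle} {φ : Fm} (h : Base O φ) : ∃ Q : Finset (List Bool), Q.card ≤ 1 ∧
    (∀ u ∈ Q, u.length ≤ φ.enc.length) ∧ ∀ O' : Oracle, (∀ u ∈ Q, O' u = O u) → Base O' φ := by
  induction h with
  | basic φ h => exact ⟨∅, by simp, by simp, fun _ _ => Base.basic φ h⟩
  | pind φ h => exact ⟨∅, by simp, by simp, fun _ _ => Base.pind φ h⟩
  | pos n h =>
    refine ⟨{str n}, by simp, fun u hu => ?_, fun O' hO' => Base.pos n ?_⟩
    · rw [Finset.mem_singleton.mp hu]
      have h1 := length_str_le n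
      have h2 := size_le_num n
      show _ ≤ (false :: true :: false :: (num n).enc).length
      simp only [List.length_cons]
      omega
    · rw [hO' _ (Finset.mem_singleton_self _), h]
  | neg n h =>
    refine ⟨{str n}, by simp, fun u hu => ?_, fun O' hO' => Base.neg n ?_⟩
    · rw [Finset.mem_singleton.mp hu]
      have h1 := length_str_le n
      have h2 := size_le_num n
      show _ ≤ (true :: false :: ((false :: true :: false :: (num n).enc) ++ _)).length
      simp only [List.length_cons, List.length_append]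
      omega
    · rw [hO' _ (Finset.mem_singleton_self _), h]
  | gen φ _ ih =>
    obtain ⟨Q, h1, h2, h3⟩ := ih
    refine ⟨Q, h1, fun u hu => (h2 u hu).trans ?_, fun O' hO' => Base.gen φ (h3 O' hO')⟩
    show _ ≤ (true :: true :: φ.enc).length
    simp only [List.length_cons]
    omega

theorem mem_len {φ : Fm} {π : List Fm} (h : φ ∈ π) : φ.enc.length ≤ (encPf π).length := by
  induction π with
  | nil => exact absurd h List.not_mem_nil
  | cons ψ π ih =>
    simp only [encPf, List.length_cons, List.length_append]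
    rcases List.mem_cons.mp h with rfl | h
    · omega
    · have := ih h
      omega

theorem len_len (π : List Fm) : π.length ≤ (encPf π).length := by
  induction π with
  | nil => simp [encPf]
  | cons ψ π ih =>
    simp only [encPf, List.length_cons, List.length_append]
    omega

theorem TCH_ok : P_TCH := by
  classical
  intro M
  obtain ⟨q, hq⟩ := acc_cert M
  have key : ∀ (O : Oracle) (B : ℕ) (π : List Fm), Prf O (Th M O) π →
      (∀ φ ∈ π, φ.enc.length ≤ B) →
      ∃ Q : Finset (List Bool), Q.card ≤ π.length * (q.eval B + 1) ∧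
        (∀ u ∈ Q, u.length ≤ q.eval B + B) ∧
        ∀ O' : Oracle, (∀ u ∈ Q, O' u = O u) → Prf O' (Th M O') π := by
    intro O B π h
    induction h with
    | nil => exact fun _ => ⟨∅, by simp, by simp, fun _ _ => Prf.nil⟩
    | ax φ π _ hax ih =>
      intro hB
      obtain ⟨Q, h1, h2, h3⟩ := ih fun ψ hψ => hB ψ (List.mem_cons_of_mem _ hψ)
      have hφ := hB φ List.mem_cons_self
      have hm : q.eval φ.enc.length ≤ q.eval B := by
        rw [Polynomial.eval_eq_sum_range, Polynomial.eval_eq_sum_range]
        exact Finset.sum_le_sum fun i _ => Nat.mul_le_mul_left _ (Nat.pow_le_pow_left hφ _)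
      have h4 : ∃ Q' : Finset (List Bool), Q'.card ≤ q.eval B + 1 ∧
          (∀ u ∈ Q', u.length ≤ q.eval B + B) ∧ ∀ O' : Oracle, (∀ u ∈ Q', O' u = O u) →
          LAx φ ∨ Base O' φ ∨ φ ∈ Th M O' := by
        rcases hax with h | h | h
        · exact ⟨∅, by simp, by simp, fun _ _ => Or.inl h⟩
        · obtain ⟨Q', a, b, c⟩ := base_cert h
          exact ⟨Q', by omega, fun u hu => (b u hu).trans (by omega),
            fun O' hO' => Or.inr (Or.inl (c O' hO'))⟩
        · obtain ⟨Q', a, b, c⟩ := hq O φ.enc
          refine ⟨Q', by omega, fun u hu => (b u hu).trans (by omega),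
            fun O' hO' => Or.inr (Or.inr ?_)⟩
          show LH.acc M O' φ.enc = [true]
          rw [c O' hO']
          exact h
      obtain ⟨Q', a, b, c⟩ := h4
      refine ⟨Q ∪ Q', ?_, fun u hu => ?_, fun O' hO' => Prf.ax φ π
        (h3 O' fun u hu => hO' u (Finset.mem_union_left _ hu))
        (c O' fun u hu => hO' u (Finset.mem_union_right _ hu))⟩
      · rw [List.length_cons, Nat.succ_mul]
        exact (Finset.card_union_le _ _).trans (Nat.add_le_add h1 a)
      · rcases Finset.mem_union.mp hu with h | h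
        · exact h2 u h
        · exact b u h
    | mp φ ψ π _ h5 h6 ih =>
      intro hB
      obtain ⟨Q, h1, h2, h3⟩ := ih fun ψ hψ => hB ψ (List.mem_cons_of_mem _ hψ)
      refine ⟨Q, h1.trans ?_, h2, fun O' hO' => Prf.mp φ ψ π (h3 O' hO') h5 h6⟩
      rw [List.length_cons, Nat.succ_mul]
      exact Nat.le_add_right _ _
  refine ⟨Polynomial.X * (q + 1) + (q + Polynomial.X), fun O φ π hπ => ?_⟩
  obtain ⟨Q, h1, h2, h3⟩ := key O (encPf π).length π hπ.1 fun ψ hψ => mem_len hψ
  simp only [Polynomial.eval_add, Polynomial.eval_mul, Polynomial.eval_X, Polynomial.eval_one]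
  refine ⟨Q, ?_, fun u hu => ?_, fun O' hO' => ⟨h3 O' hO', hπ.2⟩⟩
  · exact (h1.trans (Nat.mul_le_mul_right _ (len_len π))).trans (Nat.le_add_right _ _)
  · exact (h2 u hu).trans (Nat.le_add_left _ _)

end Pool.Agent.W2helper61.PF
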