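import Pool.Agent.W2helper61.PF.Stm
import Pool.Agent.W2helper54.PF.CEL

/-! The oracle with a given free column. -/

set_option autoImplicit false

namespace Pool.Agent.W2helper61.PF

open Pool.Agent.NPC Pool.Agent.H622R2 Pool.Agent.H620R2.Gauge Pool.Agent.W2helper61.RF

theorem clm_inj {F F' : Fm} {n m n' m' : ℕ} (h : (clm F n m).enc = (clm F' n' m').enc) :
    con F n = con F' n' := (Fm.imp.inj (Fm.enc_injective h)).2

theorem st_iff {F : Fm} {n m : ℕ} {y : List Bool} (h : y = (clm F n m).enc) (O : Oracle) :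
    St y O ↔ (con F n).sat (nat O) (fun _ => 0) := by
  constructor
  · intro h1
    exact h1 F n m h
  · intro h1 F' n' m' h'
    rw [← clm_inj (h.symm.trans h')]
    exact h1

/-- the claims -/
def CC : CS := ⟨Cl, St, by
  rintro y ⟨F, n, m, _, _, hy, _, _, hc⟩ O hO
  rw [st_iff hy] at hO
  obtain ⟨Q, h1, h2, h3⟩ := hc O hO
  refine ⟨Q, h1, h2, fun O' hO' => ?_⟩
  rw [st_iff hy]
  exact h3 O' hO'⟩

theorem st_loc {y : List Bool} (hy : Cl y) {O O' : Oracle}
    (h : ∀ u : List Bool, u.length < y.length → O u = O' u) : St y O ↔ St y O' := by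
  have key : ∀ O O' : Oracle, (∀ u : List Bool, u.length < y.length → O u = O' u) →
      St y O' → St y O := by
    intro O O' h h1
    by_contra h2
    obtain ⟨Q, _, h4, h5⟩ := CC.crt y hy O h2
    exact h5 O' (fun u hu => (h u (h4 u hu)).symm) h1
  exact ⟨key O' O fun u hu => (h u hu).symm, key O O' h⟩

theorem exists_comb (A : Oracle) : ∃ O, CC.IsComb A O := by
  classical
  obtain ⟨O, hO⟩ := fixl fun u P => match u with
    | [] => false
    | false :: y => A y
    | true :: y => decide (Cl y ∧ St y P)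
  refine ⟨O, hO [], fun y => hO (false :: y), fun y => ?_⟩
  rw [hO (true :: y)]
  simp only [decide_eq_true_eq]
  refine and_congr_right fun hy => st_loc hy fun u hu => ?_
  rw [if_pos (by rw [List.length_cons]; omega)]

theorem comb_agree {A A' O O' : Oracle} (h : CC.IsComb A O) (h' : CC.IsComb A' O') {k : ℕ}
    (hA : ∀ y : List Bool, y.length < k → A y = A' y) :
    ∀ u : List Bool, u.length ≤ k → O u = O' u := by
  have key : ∀ n : ℕ, ∀ u : List Bool, u.length ≤ n → u.length ≤ k → O u = O' u := by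
    intro n
    induction n with
    | zero =>
      intro u hu _
      rw [List.length_eq_zero_iff.mp (Nat.le_zero.mp hu), h.1, h'.1]
    | succ n ih =>
      intro u hu huk
      rcases u with _ | ⟨b, y⟩
      · rw [h.1, h'.1]
      · rw [List.length_cons] at hu huk
        cases b with
        | false => rw [h.2.1, h'.2.1, hA y (by omega)]
        | true =>
          rw [Bool.eq_iff_iff, h.2.2, h'.2.2]
          exact and_congr_right fun hy => st_loc hy fun u hu => ih u (by omega) (by omega)
  exact fun u hu => key u.length u le_rfl hu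

/-- a part of the string of a cell -/
def cs (i x w : ℕ) : List Bool := (str (cellN i x w)).tail

/-- The legal free columns: the static part is `D`, and all rows of the blocks not in `K` are
nonempty. -/
def Legal (D : Oracle) (K : Set ℕ) (A : Oracle) : Prop :=
  (∀ y, A (true :: y) = D y) ∧ ∀ i, i ∉ K → ∀ x, 2 ≤ x → ∃ w ≤ x, A (cs i x w) = true

section cells

variable (hC : Pool.Agent.W2helper54.PF.P_CEL2)
include hC

theorem cs_eq {i x w : ℕ} (hx : 2 ≤ x) (hw : w ≤ x) : str (cellN i x w) = false :: cs i x w ∧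
    (∃ y, cs i x w = false :: y) ∧ (cs i x w).length + 1 = x.size * (i + 4) := by
  obtain ⟨y, hy, hl⟩ := hC.2.2.1 i x w hx hw
  unfold cs
  rw [hy]
  refine ⟨rfl, ⟨y, rfl⟩, ?_⟩
  show y.length + 1 + 1 = _
  omega

theorem cs_inj {i x w i' x' w' : ℕ} (hx : 2 ≤ x) (hx' : 2 ≤ x') (hw : w ≤ x) (hw' : w' ≤ x')
    (h : cs i x w = cs i' x' w') : i = i' ∧ x = x' ∧ w = w' := by
  refine hC.2.2.2 i x w i' x' w' (by omega) (by omega) hw hw' ?_
  rw [(cs_eq hC hx hw).1, (cs_eq hC hx' hw').1, h]

/-- a row -/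
def row (i x : ℕ) : Finset (List Bool) := (Finset.range (x + 1)).image (cs i x)

omit hC in
theorem mem_row {i x : ℕ} {y : List Bool} : y ∈ row i x ↔ ∃ w ≤ x, cs i x w = y := by
  simp [row, Nat.lt_succ_iff]

theorem card_row {i x : ℕ} (hx : 2 ≤ x) : (row i x).card = x + 1 := by
  rw [row, Finset.card_image_of_injOn, Finset.card_range]
  intro w hw w' hw' h
  simp only [Finset.coe_range, Set.mem_Iio, Nat.lt_succ_iff] at hw hw'
  exact (cs_inj hC hx hx (by omega) (by omega) h).2.2

theorem disj_row {i x i' x' : ℕ} (hx : 2 ≤ x) (hx' : 2 ≤ x') (h : i ≠ i' ∨ x ≠ x') :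
    Disjoint (row i x) (row i' x') := by
  rw [Finset.disjoint_left]
  intro y hy hy'
  obtain ⟨w, hw, rfl⟩ := mem_row.mp hy
  obtain ⟨w', hw', h1⟩ := mem_row.mp hy'
  have h2 := cs_inj hC hx' hx hw' hw h1
  omega

theorem legal_single {D A : Oracle} {K : Set ℕ} (hA : Legal D K A) {i x : ℕ} (hx : 2 ≤ x)
    {w : List Bool} (hw : w ∈ row i x) : Legal D K (single (row i x) w A) := by
  constructor
  · intro y
    have h : (true :: y) ∉ row i x := by
      intro h
      obtain ⟨w', hw', h1⟩ := mem_row.mp h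
      obtain ⟨z, hz⟩ := (cs_eq hC hx hw' (i := i)).2.1
      rw [hz] at h1
      simp at h1
    unfold single
    rw [if_neg h, hA.1]
  · intro i' hi' x' hx'
    by_cases h : i = i' ∧ x = x'
    · obtain ⟨rfl, rfl⟩ := h
      obtain ⟨w', hw', h1⟩ := mem_row.mp hw
      refine ⟨w', hw', ?_⟩
      unfold single
      rw [h1, if_pos hw]
      simp
    · obtain ⟨w', hw', h1⟩ := hA.2 i' hi' x' hx'
      refine ⟨w', hw', ?_⟩
      have h2 : cs i' x' w' ∉ row i x := by
        intro h3
        have h4 := Finset.disjoint_left.mp (disj_row hC hx hx' (i := i) (i' := i') (by tauto)) h3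
        exact h4 (mem_row.mpr ⟨w', hw', rfl⟩)
      unfold single
      rw [if_neg h2, h1]

theorem legal_empt {D A : Oracle} {K : Set ℕ} (hA : Legal D K A) {i x : ℕ} (hx : 2 ≤ x) :
    Legal D (insert i K) (empt (row i x) A) := by
  constructor
  · intro y
    have h : (true :: y) ∉ row i x := by
      intro h
      obtain ⟨w', hw', h1⟩ := mem_row.mp h
      obtain ⟨z, hz⟩ := (cs_eq hC hx hw' (i := i)).2.1
      rw [hz] at h1
      simp at h1
    unfold empt
    rw [if_neg h, hA.1]
  · intro i' hi' x' hx'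
    rw [Set.mem_insert_iff] at hi'
    push Not at hi'
    obtain ⟨w', hw', h1⟩ := hA.2 i' hi'.2 x' hx'
    refine ⟨w', hw', ?_⟩
    have h2 : cs i' x' w' ∉ row i x := by
      intro h3
      have h4 := Finset.disjoint_left.mp (disj_row hC hx hx' (i := i) (i' := i')
        (Or.inl fun h => hi'.1 h.symm)) h3
      exact h4 (mem_row.mpr ⟨w', hw', rfl⟩)
    unfold empt
    rw [if_neg h2, h1]

end cells

end Pool.Agent.W2helper61.PF
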