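import Pool.Agent.W2helper79.PFR.Sze

/-! The proofs of the finite consistency sentences are computed in polynomial time. -/

set_option autoImplicit false

namespace Pool.Agent.W2helper61.PF

open Pool.Agent.NPC Pool.Agent.H622R2 Pool.Agent.H620R2.Gauge Pool.Agent.H591R3.PHG
  Pool.Agent.TH678.GC Pool.Agent.W2helper58.GU Pool.Agent.W2helper61.RF
open Pool.Agent.W2helper61.LH (isFP_right)
open Pool.Agent.W2helper79.PFR (below_con below_clm sat_clm length_con)

theorem poly_con (F : Fm) {α : Type} [TEnc α] {n : α → ℕ} (hn : Poly n) :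
    Poly (fun a => (con F (n a)).enc) :=
  poly_all (poly_imp (poly_le (s := fun _ => .len (.var 0)) (NPC.Poly.const _) (poly_num hn))
    (poly_imp (φ := fun _ => F) (ψ := fun _ => .bot) (NPC.Poly.const _) (NPC.Poly.const _)))

theorem poly_pf (F : Fm) {α : Type} [TEnc α] {n m : α → ℕ} (hn : Poly n) (hm : UPoly m) :
    Poly (fun a => encPf [con F (n a), clm F (n a) (m a), pad (m a)]) := by
  have h1 := poly_con F hn
  have h2 := poly_pad hm
  have h3 := poly_imp h2 h1
  exact Poly.cons (NPC.Poly.const true) (Poly.append h1 (Poly.cons (NPC.Poly.const true)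
    (Poly.append h3 (Poly.cons (NPC.Poly.const true) (Poly.append h2 (NPC.Poly.const [false]))))))

theorem sze_unif (hCRT : P_CRT) (O : Oracle) (hO0 : O [] = false)
    (hO1 : ∀ y, O (true :: y) = true ↔ Cl y ∧ St y O) :
    ∃ S : Set Fm, InT O S ∧ ∀ A : Set Fm, Cons O A → ∀ F : Fm, SB true F → F.Below 1 →
      (∀ u : ℕ, F.sat (nat O) (env [u]) → ∃ π : List Fm, PfOf O A .bot π) →
      ∃ (f : List Bool → List Bool) (p : Polynomial ℕ), PolyTime f ∧ ∀ n : ℕ, ∃ π : List Fm,
        PfOf O S (con F n) π ∧ (encPf π).length ≤ p.eval n ∧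
        f (List.replicate n true) = encPf π := by
  have hS : ∀ x, O (true :: x) = true → ∃ (F : Fm) (n m : ℕ), F.Below 1 ∧
      x = (clm F n m).enc ∧ (con F n).sat (nat O) (fun _ => 0) := by
    intro x hx
    obtain ⟨⟨F, n, m, _, h2, h3, _⟩, h4⟩ := (hO1 x).1 hx
    exact ⟨F, n, m, h2, h3, h4 F n m h3⟩
  have hjoin : O = join (fun y => O (false :: y)) (fun x => O (true :: x)) := by
    funext u
    rcases u with _ | ⟨b, u⟩
    · exact hO0
    · cases b <;> rfl
  refine ⟨{φ | O (true :: φ.enc) = true}, ⟨fun φ hφ => ?_, ?_, ℕ, nat O, ?_⟩, ?_⟩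
  · obtain ⟨F, n, m, h1, h3, _⟩ := hS _ hφ
    rw [Fm.enc_injective h3]
    exact below_clm h1 n m
  · refine ⟨fun x => [O (true :: x)], ?_, fun x => ?_⟩
    · have := isFP_right (fun y => O (false :: y)) (fun x => O (true :: x))
      rwa [← hjoin] at this
    · constructor
      · rintro ⟨φ, hφ, rfl⟩
        have h : O (true :: φ.enc) = true := hφ
        show [O (true :: φ.enc)] = [true]
        rw [h]
      · intro h
        have h' : O (true :: x) = true := by simpa using h
        obtain ⟨F, n, m, _, h3, _⟩ := hS _ h'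
        exact ⟨clm F n m, by rw [Set.mem_ofPred_eq, ← h3]; exact h', h3.symm⟩
  · rintro φ (hφ | hφ) v
    · exact nat_base O hφ v
    · obtain ⟨F, n, m, h1, h3, h4⟩ := hS _ hφ
      rw [Fm.enc_injective h3, Fm.sat_congr (nat O) _ (below_clm h1 n m) (w := fun _ => 0)
        (fun i hi => absurd hi (Nat.not_lt_zero _)), sat_clm]
      exact h4
  · intro A hA F hF hF1 hFA
    have hno : ∀ u : ℕ, ¬ F.sat (nat O) (env [u]) := by
      intro u hu
      obtain ⟨π, hπ⟩ := hFA u hu
      obtain ⟨M, s, hM⟩ := hA
      exact hπ.sound s hM (fun _ => s.zero)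
    have hcon : ∀ (n : ℕ) (v : ℕ → ℕ), (con F n).sat (nat O) v := by
      intro n v a _ ha
      apply hno a
      rwa [Fm.sat_congr (nat O) F hF1 (w := cons a v) (by
        intro i hi
        interval_cases i
        rfl)]
    obtain ⟨q, hq⟩ := hCRT F hF hF1
    refine ⟨fun x => encPf [con F x.length,
      clm F x.length (q.eval x.length + x.length + 2 ^ F.enc.length),
      pad (q.eval x.length + x.length + 2 ^ F.enc.length)],
      Polynomial.C 6 * q + Polynomial.C 36 * Polynomial.X +
      Polynomial.C (6 * 2 ^ F.enc.length + 2 * F.enc.length + 200), ?_, fun n => ?_⟩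
    · have hl : UPoly (fun x : List Bool => x.length) := UPoly.length Poly.id
      exact polyTime_of_poly_list (poly_pf F hl.toPoly
        (UPoly.add (UPoly.add (hl.eval q) hl) (UPoly.const _)))
    have hpos : 0 < 2 ^ F.enc.length := by positivity
    set m : ℕ := q.eval n + n + 2 ^ F.enc.length with hm
    have hlen : (clm F n m).enc.length = 3 * m + 18 + (con F n).enc.length := by
      show (true :: false :: ((pad m).enc ++ (con F n).enc)).length = _
      rw [List.length_cons, List.length_cons, List.length_append, length_pad]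
      omega
    have hcl : Pool.Agent.W2helper61.PF.Cl (clm F n m).enc :=
      ⟨F, n, m, hF, hF1, rfl, by rw [hlen]; omega, by rw [hlen]; omega,
        hq n _ (by rw [hlen]; omega)⟩
    have hst : Pool.Agent.W2helper61.PF.St (clm F n m).enc O := by
      intro F' n' m' h
      rw [← Pool.Agent.W2helper79.PFR.clm_inj h]
      exact hcon n _
    have hmem : O (true :: (clm F n m).enc) = true := (hO1 _).2 ⟨hcl, hst⟩
    refine ⟨[con F n, clm F n m, pad m], ⟨?_, rfl⟩, ?_, by simp only [List.length_replicate, hm]⟩
    · refine Prf.mp _ (pad m) _ (Prf.ax _ _ (Prf.ax _ _ Prf.nil (Or.inl (pad_lax m)))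
        (Or.inr (Or.inr hmem))) ?_ ?_
      · exact List.mem_cons_self
      · simp
    · have h1 := length_con F n
      have h2 := length_pad m
      simp only [encPf, List.length_cons, List.length_append, List.length_nil, hlen,
        Polynomial.eval_add, Polynomial.eval_mul, Polynomial.eval_C, Polynomial.eval_X]
      omega

end Pool.Agent.W2helper61.PF
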