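import Pool.Agent.W2helper61.PF.Glob2
import Pool.Agent.W2helper61.PF.Unif

/-! The theorem. -/

set_option autoImplicit false

namespace Pool.Agent.W2helper61.PF

open Pool.Agent.NPC Pool.Agent.H622R2 Pool.Agent.H620R2.Gauge Pool.Agent.W2helper61.RF
  Pool.Agent.H591R3.PHG

/-- The bounded formula `μ(e, x, z)` is universal for `Σ^b_1` formulas `β(x)` (the variables of `μ` are
numbered `0, 1, 2`): for every `β` there are a number `e` and a polynomial `r` such that `β(x)` and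
`μ(e, x, z)` are equivalent as soon as `|z| ≥ r(|x|)`, in all standard structures. -/
def Univ (μ : Fm) : Prop := Bdd μ ∧ μ.Below 3 ∧ ∀ β : Fm, SB true β → β.Below 1 →
  ∃ (e : ℕ) (r : Polynomial ℕ), ∀ (O : Oracle) (x z : ℕ), r.eval x.size ≤ z.size →
    (β.sat (nat O) (env [x]) ↔ μ.sat (nat O) (env [e, x, z]))

theorem main (hL : P_LEX) (hT : P_TCH) (hR : P_CRT) (hN : P_CNT) (hS : P_SUB)
    (hC : Pool.Agent.W2helper54.PF.P_CEL2) (hE : P_REF) : ∃ O : Oracle,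
    (∃ S : Set Fm, InT O S ∧ ∀ A : Set Fm, Cons O A → ∀ F : Fm, SB true F → F.Below 1 →
      (∀ u : ℕ, F.sat (nat O) (env [u]) → ∃ π : List Fm, PfOf O A .bot π) →
      ∃ (f : List Bool → List Bool) (p : Polynomial ℕ), PolyTime f ∧ ∀ n : ℕ, ∃ π : List Fm,
        PfOf O S (con F n) π ∧ (encPf π).length ≤ p.eval n ∧
        f (List.replicate n true) = encPf π) ∧
    ∀ μ : Fm, Univ μ → ∀ S : Set Fm, InT O S → ∃ T : Set Fm, InT O T ∧
      ∃ k : ℕ, ∀ F : Fm, Form (fun y => O (false :: true :: y)) T μ F → ∀ N : ℕ, ∃ n, N ≤ n ∧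
        ∀ π : List Fm, PfOf O S (rfn F μ n) π → n < (Nat.log 2 (encPf π).length + 1) ^ k := by
  classical
  have hcn := CC.poly_countable
  have hc2 : Countable Alg := Alg.countable
  have hc3 := Fm.countable
  obtain ⟨κ, hκ⟩ := exists_injective_nat Alg
  obtain ⟨ι, hι⟩ := exists_injective_nat (Fm × ℕ × Polynomial ℕ)
  let D : Oracle := fun y => decide (∃ (μ : Fm) (e : ℕ) (r : Polynomial ℕ) (φ : Fm),
    y = List.replicate (ι (μ, e, r)) true ++ false :: φ.enc ∧ φ ∈ Tx μ e r)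
  obtain ⟨A, K, hleg, hK, kf, hQ⟩ := glob hC hL hT hN hS D κ hκ
  obtain ⟨O, hO⟩ := exists_comb A
  refine ⟨O, sze_unif hR O hO.1 hO.2.2, ?_⟩
  rintro μ ⟨hμb, hμ3, hμ⟩ S ⟨hS1, ⟨V, hV, hVS⟩, hS3⟩
  obtain ⟨M, _, rfl⟩ := LH.exists_acc hV
  have hSM : S = Th M O := by
    ext φ
    have h1 := hVS φ.enc
    constructor
    · intro h
      exact h1.mp ⟨φ, h, rfl⟩
    · intro h
      obtain ⟨ψ, h2, h3⟩ := h1.mpr h
      rwa [← Fm.enc_injective h3]
  subst hSM
  have hnK : κ M ∉ K := by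
    intro h
    obtain ⟨F, μ', m, π, h1, h2, h3, h4, h5, h6⟩ := hK M h O hO
    exact hE O (Th M O) F μ' m π h1 h2 h3 h4 h5 h6 hS3
  obtain ⟨e, r, hU⟩ := hμ (bet (κ M)) (hC.1 _).1 (hC.1 _).2
  have hD : ∀ y, O (false :: true :: y) = D y := fun y => by rw [hO.2.1, hleg.1]
  refine ⟨Tx μ e r, ⟨?_, ⟨fun x => [O (false :: true ::
    (List.replicate (ι (μ, e, r)) true ++ false :: x))], ?_, fun y => ?_⟩, ℕ, nat O, ?_⟩, kf M μ e r, ?_⟩
  · rintro φ ⟨x, _, rfl⟩
    exact (hS μ hμ3).1 _ _ _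
  · exact (LH.isFP_self O).precomp (g := fun x => false :: true ::
      (List.replicate (ι (μ, e, r)) true ++ false :: x))
      (Poly.cons (NPC.Poly.const false) (Poly.cons (NPC.Poly.const true)
        (Poly.append (NPC.Poly.const _) (Poly.cons (NPC.Poly.const false) Poly.id))))
  · show (∃ φ ∈ Tx μ e r, φ.enc = y) ↔ [O _] = [true]
    rw [hD, List.cons.injEq, decide_eq_true_eq]
    constructor
    · rintro ⟨φ, h1, rfl⟩
      exact ⟨⟨μ, e, r, φ, rfl, h1⟩, rfl⟩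
    · rintro ⟨⟨μ', e', r', φ, h1, h2⟩, -⟩
      obtain ⟨h3, h4⟩ := rep_inj _ _ h1
      have h5 := hι h3
      simp only [Prod.mk.injEq] at h5
      obtain ⟨rfl, rfl, rfl⟩ := h5
      exact ⟨φ, h2, h4.symm⟩
  · rintro φ (hφ | ⟨x, hx, rfl⟩) v
    · exact nat_base O hφ v
    · rw [Fm.sat_sub, Fm.sat_congr (nat O) μ hμ3 (w := env [e, x, 2 ^ r.eval x.size]) (by
        intro j hj
        interval_cases j
        · exact val_num O v e
        · exact val_num O v x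
        · exact val_num O v _), ← hU O x _ (by rw [Nat.size_pow]; omega), hC.2.1]
      obtain ⟨w, hw, h1⟩ := hleg.2 _ hnK x hx
      refine ⟨w, hw, ?_⟩
      rw [(cs_eq hC hx hw).1, hO.2.1, h1]
  · intro F hF N
    have hF' : Form D (Tx μ e r) μ F := by
      have h1 : (fun y => O (false :: true :: y)) = D := funext hD
      rwa [h1] at hF
    obtain ⟨m, hNm, hm⟩ := hQ ⟨M, N, μ, e, r, F⟩ hnK ⟨hμb, ⟨hμ3, hU⟩, hF'⟩
    refine ⟨m, hNm, fun π h1 => ?_⟩
    by_contra h2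
    push Not at h2
    exact hm O hO π h2 h1

end Pool.Agent.W2helper61.PF
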