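import Pool.Agent.W2helper61.PF.Stage2

/-! The construction of the oracle (exponential bound). -/

set_option autoImplicit false

namespace Pool.Agent.W2helper61.PF

open Pool.Agent.NPC Pool.Agent.H622R2 Pool.Agent.H620R2.Gauge Pool.Agent.W2helper61.RF
  Pool.Agent.H591R3.PHG

/-- the theory proves a false reflection sentence -/
def Killed (M : Alg) (O : Oracle) : Prop := ∃ (F μ : Fm) (m : ℕ) (π : List Fm), Bdd F ∧
  F.Below 4 ∧ Bdd μ ∧ μ.Below 3 ∧ PfOf O (Th M O) (rfn F μ m) π ∧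
  ¬ (rfn F μ m).sat (nat O) (fun _ => 0)

theorem killed_open (hT : P_TCH) {M : Alg} {A O : Oracle} (hO : CC.IsComb A O)
    (h : Killed M O) : ∃ l, ∀ A' : Oracle, (∀ y : List Bool, y.length < l → A' y = A y) →
      ∀ O', CC.IsComb A' O' → Killed M O' := by
  obtain ⟨F, μ, m, π, h1, h2, h3, h4, h5, h6⟩ := h
  obtain ⟨t, ht⟩ := hT M
  obtain ⟨Q, _, hQ, hQ'⟩ := ht O _ π h5
  obtain ⟨q, hq⟩ := rfn_loc h1 h3
  refine ⟨max (t.eval (encPf π).length) (q.eval m + 1), fun A' hA' O' hO' =>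
    ⟨F, μ, m, π, h1, h2, h3, h4, ?_, ?_⟩⟩
  · exact hQ' O' fun u hu => comb_agree hO' hO hA' u ((hQ u hu).trans (le_max_left _ _))
  · rw [hq m (q.eval m + 1) (Nat.lt_succ_self _) O' O fun u hu =>
      comb_agree hO' hO hA' u (hu.le.trans (le_max_right _ _))]
    exact h6

theorem noshort_open (hT : P_TCH) {M : Alg} {A O : Oracle} (hO : CC.IsComb A O) {φ : Fm}
    {k m : ℕ} (h : ∀ π, (Nat.log 2 (encPf π).length + 1) ^ k ≤ m → ¬ PfOf O (Th M O) φ π)
    (hk : 1 ≤ k) :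
    ∃ l, ∀ A' : Oracle, (∀ y : List Bool, y.length < l → A' y = A y) →
      ∀ O', CC.IsComb A' O' → ∀ π, (Nat.log 2 (encPf π).length + 1) ^ k ≤ m →
        ¬ PfOf O' (Th M O') φ π := by
  obtain ⟨t, ht⟩ := hT M
  refine ⟨t.eval (2 ^ m), fun A' hA' O' hO' π hπ hP => h π hπ ?_⟩
  obtain ⟨Q, _, hQ, hQ'⟩ := ht O' _ π hP
  have h1 : (encPf π).length ≤ 2 ^ m := by
    refine (Nat.lt_pow_succ_log_self (by norm_num : 1 < 2) (encPf π).length).le.trans
      (Nat.pow_le_pow_right (by norm_num) (le_trans ?_ hπ))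
    exact Nat.le_self_pow (by omega) _
  exact hQ' O fun u hu => (comb_agree hO' hO hA' u ((hQ u hu).trans (ev_mono t h1))).symm

/-- requirements -/
structure Req where
  M : Alg
  N : ℕ
  μ : Fm
  e : ℕ
  r : Polynomial ℕ
  F : Fm

/-- the hypotheses of a requirement -/
def Hyp (D : Oracle) (κ : Alg → ℕ) (q : Req) : Prop := Bdd q.μ ∧ UHyp q.M κ q.μ q.e q.r ∧
  Form D (Tx q.μ q.e q.r) q.μ q.F

/-- a stage -/
structure Stg where
  A : Oracle
  l : ℕ
  K : Set ℕ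

/-- good stages -/
def Inv (D : Oracle) (κ : Alg → ℕ) (s : Stg) : Prop := Legal D s.K s.A ∧ ∀ M, κ M ∈ s.K →
  ∀ A' : Oracle, (∀ y : List Bool, y.length < s.l → A' y = s.A y) →
    ∀ O', CC.IsComb A' O' → Killed M O'

/-- the requirement is satisfied -/
def Met (kf : Alg → Fm → ℕ → Polynomial ℕ → ℕ) (q : Req) (s : Stg) : Prop := ∃ m, q.N ≤ m ∧
  ∀ A' : Oracle, (∀ y : List Bool, y.length < s.l → A' y = s.A y) → ∀ O', CC.IsComb A' O' →
    ∀ π, (Nat.log 2 (encPf π).length + 1) ^ kf q.M q.μ q.e q.r ≤ m →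
      ¬ PfOf O' (Th q.M O') (rfn q.F q.μ m) π

theorem step (hT : P_TCH) (D : Oracle) (κ : Alg → ℕ) (hκ : Function.Injective κ)
    (kf : Alg → Fm → ℕ → Polynomial ℕ → ℕ) (hkf : ∀ M μ e r, UHyp M κ μ e r →
      1 ≤ kf M μ e r ∧ StP κ M μ e r (kf M μ e r)) (s : Stg)
    (hs : Inv D κ s) (q : Req) : ∃ s' : Stg, Inv D κ s' ∧ s.l < s'.l ∧ s.K ⊆ s'.K ∧
      (∀ y : List Bool, y.length < s.l → s'.A y = s.A y) ∧
      (κ q.M ∈ s'.K ∨ (Hyp D κ q → Met kf q s')) := by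
  by_cases hk : Hyp D κ q
  · obtain ⟨h2, h3, h4⟩ := id hk
    have h1 := h3.1
    obtain ⟨hk1, hst⟩ := hkf q.M q.μ q.e q.r h3
    obtain ⟨m, A', hNm, hag, h5⟩ := hst D s.K s.A hs.1 s.l q.N q.F h4
    obtain ⟨O', hO'⟩ := exists_comb A'
    rcases h5 with ⟨h5, h6⟩ | ⟨h5, h6⟩
    · obtain ⟨l', hl'⟩ := noshort_open hT hO' (h6 O' hO') hk1
      refine ⟨⟨A', max (s.l + 1) l', s.K⟩, ⟨h5, fun M hM A'' hA'' O'' hO'' => ?_⟩,
        (Nat.lt_succ_self _).trans_le (le_max_left _ _), subset_rfl, hag, Or.inr fun _ => ⟨m, hNm,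
          fun A'' hA'' => hl' A'' fun y hy => hA'' y (hy.trans_le (le_max_right _ _))⟩⟩
      refine hs.2 M hM A'' (fun y hy => ?_) O'' hO''
      exact (hA'' y (hy.trans ((Nat.lt_succ_self _).trans_le (le_max_left _ _)))).trans (hag y hy)
    · obtain ⟨π, h7, h8⟩ := h6 O' hO'
      obtain ⟨l', hl'⟩ := killed_open (M := q.M) hT hO' ⟨q.F, q.μ, m, π, h4.1, h4.2.1, h2, h1,
        h7, h8⟩
      refine ⟨⟨A', max (s.l + 1) l', insert (κ q.M) s.K⟩, ⟨h5, fun M hM A'' hA'' O'' hO'' => ?_⟩,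
        (Nat.lt_succ_self _).trans_le (le_max_left _ _), Set.subset_insert _ _, hag,
        Or.inl (Set.mem_insert _ _)⟩
      rcases Set.mem_insert_iff.mp hM with hM | hM
      · rw [hκ hM]
        exact hl' A'' (fun y hy => hA'' y (hy.trans_le (le_max_right _ _))) O'' hO''
      · refine hs.2 M hM A'' (fun y hy => ?_) O'' hO''
        exact (hA'' y (hy.trans ((Nat.lt_succ_self _).trans_le (le_max_left _ _)))).trans
          (hag y hy)
  · refine ⟨⟨s.A, s.l + 1, s.K⟩, ⟨hs.1, fun M hM A' hA' O' hO' => ?_⟩, Nat.lt_succ_self _,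
      subset_rfl, fun _ _ => rfl, Or.inr fun h => absurd h hk⟩
    exact hs.2 M hM A' (fun y hy => hA' y (hy.trans (Nat.lt_succ_self _))) O' hO'

theorem Req.countable : ∃ e : ℕ → Req, Function.Surjective e := by
  have hcn := CC.poly_countable
  have hc2 : Countable Alg := Alg.countable
  have hc3 := Fm.countable
  let f : Req → Alg × ℕ × Fm × ℕ × Polynomial ℕ × Fm :=
    fun q => (q.M, q.N, q.μ, q.e, q.r, q.F)
  have hf : Function.Injective f := by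
    intro q q' h
    obtain ⟨a, b, c, d, e, g⟩ := q
    obtain ⟨a', b', c', d', e', g'⟩ := q'
    simp only [f, Prod.mk.injEq] at h
    obtain ⟨rfl, rfl, rfl, rfl, rfl, rfl⟩ := h
    rfl
  have hcr : Countable Req := hf.countable
  have hne : Nonempty Req := by
    obtain ⟨M, _, _⟩ := LH.exists_acc (O := fun _ => false) (IsFP.of_poly (A := fun _ => false)
      (F := fun x => x) Poly.id)
    exact ⟨⟨M, 0, .bot, 0, 0, .bot⟩⟩
  exact exists_surjective_nat Req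

theorem glob (hC : Pool.Agent.W2helper54.PF.P_CEL2) (hL : P_LEX) (hT : P_TCH) (hN : P_CNT)
    (hS : P_SUB) (D : Oracle) (κ : Alg → ℕ) (hκ : Function.Injective κ) :
    ∃ (A : Oracle) (K : Set ℕ), Legal D K A ∧
      (∀ M, κ M ∈ K → ∀ O, CC.IsComb A O → Killed M O) ∧
      ∃ kf : Alg → Fm → ℕ → Polynomial ℕ → ℕ, ∀ q : Req, κ q.M ∉ K → Hyp D κ q →
        ∃ m, q.N ≤ m ∧ ∀ O, CC.IsComb A O →
        ∀ π, (Nat.log 2 (encPf π).length + 1) ^ kf q.M q.μ q.e q.r ≤ m →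
          ¬ PfOf O (Th q.M O) (rfn q.F q.μ m) π := by
  classical
  have hk0 : ∀ M μ e r, ∃ k, UHyp M κ μ e r → 1 ≤ k ∧ StP κ M μ e r k := by
    intro M μ e r
    by_cases h : UHyp M κ μ e r
    · obtain ⟨k, hk⟩ := stage2 hC hL hT hN hS κ M μ e r h
      refine ⟨k + 1, fun _ => ⟨Nat.le_add_left _ _, fun D K A hA l N F hF => ?_⟩⟩
      obtain ⟨m, A', h1, h2, h3⟩ := hk D K A hA l N F hF
      refine ⟨m, A', h1, h2, h3.imp (fun h4 => ⟨h4.1, fun O' hO' π hπ => h4.2 O' hO' π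
        (le_trans (Nat.pow_le_pow_right (Nat.le_add_left _ _) (Nat.le_succ k)) hπ)⟩) id⟩
    · exact ⟨0, fun h' => absurd h' h⟩
  choose kf hkf using hk0
  obtain ⟨e, he⟩ := Req.countable
  choose f hf using fun (q : ℕ) (s : Stg) (hs : Inv D κ s) =>
    step hT D κ hκ kf hkf s hs (e q)
  let s₀ : Stg := ⟨fun y => match y with
    | true :: z => D z
    | _ => true, 0, ∅⟩
  have hs₀ : Inv D κ s₀ := by
    refine ⟨⟨fun y => rfl, fun i _ x hx => ⟨0, Nat.zero_le _, ?_⟩⟩, fun M hM => absurd hM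
      (Set.notMem_empty _)⟩
    obtain ⟨y, hy⟩ := (cs_eq hC hx (Nat.zero_le x) (i := i)).2.1
    rw [hy]
  let g : ℕ → {s : Stg // Inv D κ s} := fun q => Nat.rec ⟨s₀, hs₀⟩
    (fun q s => ⟨f q s.1 s.2, (hf q s.1 s.2).1⟩) q
  have hg : ∀ q, (g (q + 1)).1 = f q (g q).1 (g q).2 := fun q => rfl
  have h1 : ∀ q, (g q).1.l < (g (q + 1)).1.l ∧ (g q).1.K ⊆ (g (q + 1)).1.K ∧
      (∀ y : List Bool, y.length < (g q).1.l → (g (q + 1)).1.A y = (g q).1.A y) ∧
      (κ (e q).M ∈ (g (q + 1)).1.K ∨ (Hyp D κ (e q) → Met kf (e q) (g (q + 1)).1)) := fun q =>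
    (hf q (g q).1 (g q).2).2
  have h2 : ∀ q d, (g q).1.l ≤ (g (q + d)).1.l ∧ (g q).1.K ⊆ (g (q + d)).1.K ∧
      (∀ y : List Bool, y.length < (g q).1.l → (g (q + d)).1.A y = (g q).1.A y) := by
    intro q d
    induction d with
    | zero => exact ⟨le_rfl, subset_rfl, fun _ _ => rfl⟩
    | succ d ih =>
      obtain ⟨a, b, c, -⟩ := h1 (q + d)
      exact ⟨ih.1.trans a.le, ih.2.1.trans b, fun y hy => (c y (hy.trans_le ih.1)).trans
        (ih.2.2 y hy)⟩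
  have h2' : ∀ q q', q ≤ q' → (g q).1.l ≤ (g q').1.l ∧ (g q).1.K ⊆ (g q').1.K ∧
      (∀ y : List Bool, y.length < (g q).1.l → (g q').1.A y = (g q).1.A y) := by
    intro q q' h
    obtain ⟨d, rfl⟩ := Nat.exists_eq_add_of_le h
    exact h2 q d
  have hl : ∀ q, q ≤ (g q).1.l := by
    intro q
    induction q with
    | zero => exact Nat.zero_le _
    | succ q ih =>
      have := (h1 q).1
      omega
  set A : Oracle := fun y => (g (y.length + 1)).1.A y with hA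
  have hag : ∀ q (y : List Bool), y.length < (g q).1.l → A y = (g q).1.A y := by
    intro q y hy
    rcases le_total q (y.length + 1) with h | h
    · exact (h2' _ _ h).2.2 y hy
    · exact ((h2' _ _ h).2.2 y (hl (y.length + 1))).symm
  refine ⟨A, ⋃ q, (g q).1.K, ⟨fun y => ?_, fun i hi x hx => ?_⟩, fun M hM O hO => ?_,
    kf, fun q hq hy => ?_⟩
  · exact (g ((true :: y).length + 1)).2.1.1 y
  · obtain ⟨w, hw, h3⟩ := (g (x.size * (i + 4))).2.1.2 i
      (fun h => hi (Set.mem_iUnion.mpr ⟨_, h⟩)) x hx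
    refine ⟨w, hw, ?_⟩
    rw [hag (x.size * (i + 4)) _ ?_, h3]
    have h4 := (cs_eq hC hx hw (i := i)).2.2
    have h5 := hl (x.size * (i + 4))
    omega
  · obtain ⟨q, hq⟩ := Set.mem_iUnion.mp hM
    exact (g q).2.2 M hq A (hag q) O hO
  · obtain ⟨j, rfl⟩ := he q
    rcases (h1 j).2.2.2 with h3 | h3
    · exact absurd h3 fun h3 => hq (Set.mem_iUnion.mpr ⟨j + 1, h3⟩)
    · obtain ⟨m, hNm, hm⟩ := h3 hy
      exact ⟨m, hNm, fun O hO => hm A (hag (j + 1)) O hO⟩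

end Pool.Agent.W2helper61.PF
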