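import Pool.Agent.W2helper61.PF.Comb

/-! One stage of the construction. -/

set_option autoImplicit false

namespace Pool.Agent.W2helper61.PF

open Pool.Agent.NPC Pool.Agent.H622R2 Pool.Agent.H620R2.Gauge Pool.Agent.W2helper61.RF

/-- the axioms of the theory -/
def Tx (μ : Fm) (e : ℕ) (r : Polynomial ℕ) : Set Fm :=
  {φ | ∃ x, 2 ≤ x ∧ φ = μ.sub (nums [e, x, 2 ^ r.eval x.size])}

/-- `F` is true at the codes of proofs, for all oracles with the static part `D` -/
def Form (D : Oracle) (T : Set Fm) (μ F : Fm) : Prop := Bdd F ∧ F.Below 4 ∧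
  ∀ O : Oracle, (∀ y, O (false :: true :: y) = D y) → ∀ (e x z u : ℕ) (π : List Fm),
    str u = encPf π → PfOf O T (μ.sub (nums [e, x, z])) π → F.sat (nat O) (env [e, x, z, u])

theorem exists_n0 (P : Polynomial ℕ) : ∃ n₀ : ℕ, ∀ n ≥ n₀, P.eval n ≤ 2 ^ n := by
  have hle : ∀ m : ℕ, 1 ≤ m → P.eval m ≤ P.eval 1 * m ^ P.natDegree := by
    intro m hm
    rw [Polynomial.eval_eq_sum_range, Polynomial.eval_eq_sum_range, Finset.sum_mul]
    refine Finset.sum_le_sum fun i hi => ?_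
    rw [Finset.mem_range] at hi
    rw [one_pow, mul_one]
    exact Nat.mul_le_mul_left _ (Nat.pow_le_pow_right hm (by omega))
  have h := tendsto_pow_const_div_const_pow_of_one_lt P.natDegree (r := (2 : ℝ)) (by norm_num)
  have h2 : ∀ᶠ n : ℕ in Filter.atTop,
      (n : ℝ) ^ P.natDegree / 2 ^ n < 1 / ((P.eval 1 : ℕ) + 1 : ℝ) :=
    h.eventually_lt_const (by positivity)
  obtain ⟨n₁, hn₁⟩ := Filter.eventually_atTop.1 h2
  refine ⟨max n₁ 1, fun n hn => ?_⟩
  have h3 := hn₁ n ((le_max_left _ _).trans hn)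
  have h4 := hle n ((le_max_right _ _).trans hn)
  rw [div_lt_div_iff₀ (by positivity) (by positivity), one_mul] at h3
  have h5 : ((P.eval 1 * n ^ P.natDegree : ℕ) : ℝ) ≤ ((2 ^ n : ℕ) : ℝ) := by
    push_cast
    have h6 : (0 : ℝ) ≤ (n : ℝ) ^ P.natDegree := by positivity
    nlinarith
  exact h4.trans (by exact_mod_cast h5)

theorem ev_mono (p : Polynomial ℕ) {a b : ℕ} (h : a ≤ b) : p.eval a ≤ p.eval b := by
  rw [Polynomial.eval_eq_sum_range, Polynomial.eval_eq_sum_range]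
  exact Finset.sum_le_sum fun i _ => Nat.mul_le_mul_left _ (Nat.pow_le_pow_left h _)

theorem size_eq_of {x n : ℕ} (hn : 1 ≤ n) (h1 : 2 ^ (n - 1) ≤ x) (h2 : x < 2 ^ n) : x.size = n := by
  have h3 := Nat.size_le.mpr h2
  have h4 := Nat.lt_size.mpr h1
  omega

theorem stage (hC : Pool.Agent.W2helper54.PF.P_CEL2) (hL : P_LEX) (hT : P_TCH) (hN : P_CNT) (hS : P_SUB)
    (D : Oracle) (K : Set ℕ) (A : Oracle) (hA : Legal D K A) (l : ℕ) (M : Alg) (i : ℕ)
    (p : Polynomial ℕ) (μ : Fm) (e : ℕ) (r : Polynomial ℕ) (F : Fm) (hμ3 : μ.Below 3)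
    (hU : ∀ (O : Oracle) (x z : ℕ), r.eval x.size ≤ z.size →
      ((bet i).sat (nat O) (env [x]) ↔ μ.sat (nat O) (env [e, x, z])))
    (hF : Form D (Tx μ e r) μ F) :
    ∃ (m : ℕ) (A' : Oracle), (∀ y : List Bool, y.length < l → A' y = A y) ∧
      ((Legal D K A' ∧ ∀ O', CC.IsComb A' O' → ∀ π, (encPf π).length ≤ p.eval m →
        ¬ PfOf O' (Th M O') (rfn F μ m) π) ∨
      (Legal D (insert i K) A' ∧ ∀ O', CC.IsComb A' O' → ∃ π, PfOf O' (Th M O') (rfn F μ m) π ∧
        ¬ (rfn F μ m).sat (nat O') (fun _ => 0))) := by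
  classical
  obtain ⟨t, ht⟩ := hT M
  obtain ⟨c, hc⟩ := hN
  obtain ⟨-, s, hs⟩ := hS μ hμ3
  let P : Polynomial ℕ := Polynomial.C e.size + Polynomial.X + (r + 1) +
    (s.comp (Polynomial.C e.size + Polynomial.X + (r + 1)) + 3)
  let Lp : Polynomial ℕ := t.comp (p.comp P)
  obtain ⟨n₀, hn₀⟩ := exists_n0 (2 * (Lp + c.comp Lp * Lp + Lp + 2))
  set n := max n₀ (l + 2) with hn
  have hn1 : 1 ≤ n := (Nat.le_add_left 1 (l + 1)).trans (le_max_right _ _)
  have hnl : l + 2 ≤ n := le_max_right _ _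
  have hbud := hn₀ n (le_max_left _ _)
  set m := P.eval n with hm
  set L := Lp.eval n with hLdef
  have hLe : L = t.eval (p.eval m) := by
    simp only [hLdef, Lp, Polynomial.eval_comp, hm]
  have hme : m = e.size + n + (r.eval n + 1) + (s.eval (e.size + n + (r.eval n + 1)) + 3) := by
    simp only [hm, P, Polynomial.eval_add, Polynomial.eval_C, Polynomial.eval_X,
      Polynomial.eval_one, Polynomial.eval_comp, Polynomial.eval_ofNat]
  have h2n : 2 ^ n = 2 * 2 ^ (n - 1) := by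
    rw [← pow_succ']
    congr 1
    omega
  simp only [Polynomial.eval_mul, Polynomial.eval_add, Polynomial.eval_ofNat,
    Polynomial.eval_comp] at hbud
  rw [← hLdef, h2n] at hbud
  have hbud' : L + c.eval L * L + L + 2 ≤ 2 ^ (n - 1) := by omega
  set X := Finset.Ico (2 ^ (n - 1)) (2 ^ n) with hX
  have hXs : ∀ x ∈ X, x.size = n := fun x hx => by
    rw [hX, Finset.mem_Ico] at hx
    exact size_eq_of hn1 hx.1 hx.2
  have hX1 : ∀ x ∈ X, 2 ≤ x := fun x hx => by
    rw [hX, Finset.mem_Ico] at hx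
    have h1 : 2 ^ 1 ≤ 2 ^ (n - 1) := Nat.pow_le_pow_right (by norm_num) (by omega)
    omega
  have hXc : X.card = 2 ^ (n - 1) := by
    rw [hX, Nat.card_Ico, h2n]
    omega
  have hlen : ∀ x ∈ X, ∀ y ∈ row i x, l ≤ y.length := by
    intro x hx y hy
    obtain ⟨w, hw, rfl⟩ := mem_row.mp hy
    have h1 := (cs_eq hC (hX1 x hx) hw (i := i)).2.2
    rw [hXs x hx] at h1
    have h2 : n * 1 ≤ n * (i + 4) := Nat.mul_le_mul_left _ (by omega)
    omega
  obtain ⟨Y, hY1, hY2⟩ := hc L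
  obtain ⟨A₁, ⟨hA₁, hag⟩, hlex⟩ := hL CC
    (fun A' => Legal D K A' ∧ ∀ y : List Bool, y.length < l → A' y = A y) X (row i) L Y A
    (fun x hx x' hx' h => disj_row hC (hX1 x hx) (hX1 x' hx') (Or.inr h))
    (fun A' hA' x hx w hw => ⟨legal_single hC hA'.1 (hX1 x hx) hw, fun y hy => by
      have h1 : y ∉ row i x := fun h => by
        have := hlen x hx y h
        omega
      unfold single
      rw [if_neg h1, hA'.2 y hy]⟩)
    (fun x hx => by
      rw [card_row hC (hX1 x hx)]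
      rw [hX, Finset.mem_Ico] at hx
      omega)
    hY2 ⟨hA, fun _ _ => rfl⟩
  by_cases hk : ∃ O₁, CC.IsComb A₁ O₁ ∧ ∃ π, (encPf π).length ≤ p.eval m ∧
      PfOf O₁ (Th M O₁) (rfn F μ m) π
  · obtain ⟨O₁, hO₁, π, hπ, hP⟩ := hk
    obtain ⟨Q, hQ1, hQ2, hQ3⟩ := ht O₁ _ π hP
    have htL : t.eval (encPf π).length ≤ L := by
      rw [hLe]
      exact ev_mono t hπ
    have hYL : Y.card * L ≤ c.eval L * L := Nat.mul_le_mul_right _ hY1
    obtain ⟨x, hx, hx2⟩ := hlex Q (fun u hu => (hQ2 u hu).trans htL) (by rw [hXc]; omega)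
    have hx1 := hX1 x hx
    have hxs := hXs x hx
    have hleg := legal_empt hC hA₁ (i := i) hx1
    refine ⟨m, empt (row i x) A₁, fun y hy => ?_, Or.inr ⟨hleg, fun O' hO' => ⟨π, hQ3 O'
      (fun u hu => hx2 O₁ O' hO₁ hO' u hu), fun H => ?_⟩⟩⟩
    · have h1 : y ∉ row i x := fun h => by
        have := hlen x hx y h
        omega
      unfold empt
      rw [if_neg h1, hag y hy]
    · rw [sat_rfn] at H
      set z := 2 ^ r.eval x.size with hz
      set ψ := μ.sub (nums [e, x, z]) with hψ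
      have hzs : z.size = r.eval n + 1 := by rw [hz, Nat.size_pow, hxs]
      have hψl : ψ.enc.length ≤ s.eval (e.size + n + (r.eval n + 1)) := by
        have h1 := hs e x z
        rwa [hxs, hzs] at h1
      have hul : (encPf [ψ]).length = ψ.enc.length + 2 := by
        show (true :: (ψ.enc ++ [false])).length = _
        simp
      have hu : (idx (encPf [ψ])).size ≤ m := by
        have h1 := idx_lt (encPf [ψ])
        have h2 : (idx (encPf [ψ])).size ≤ (encPf [ψ]).length + 1 := Nat.size_le.mpr (by omega)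
        omega
      have hst : ∀ y, O' (false :: true :: y) = D y := by
        intro y
        rw [hO'.2.1, hleg.1]
      have hpf : PfOf O' (Tx μ e r) ψ [ψ] :=
        ⟨Prf.ax _ _ Prf.nil (Or.inr (Or.inr ⟨x, hx1, rfl⟩)), rfl⟩
      have h1 := hF.2.2 O' hst e x z (idx (encPf [ψ])) [ψ] (str_idx _) hpf
      have h2 := H (idx (encPf [ψ])) z x e hu (by omega) (by omega) (by omega) (by
        rw [Fm.sat_congr (nat O') F hF.2.1 (w := env [e, x, z, idx (encPf [ψ])]) (by
          intro j hj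
          interval_cases j <;> rfl)]
        exact h1)
      rw [Fm.sat_congr (nat O') μ hμ3 (w := env [e, x, z]) (by
          intro j hj
          interval_cases j <;> rfl), ← hU O' x z (by rw [hxs, hzs]; omega), hC.2.1] at h2
      obtain ⟨w, hw, h3⟩ := h2
      rw [(cs_eq hC hx1 hw).1, hO'.2.1] at h3
      unfold empt at h3
      rw [if_pos (mem_row.mpr ⟨w, hw, rfl⟩)] at h3
      cases h3
  · push Not at hk
    exact ⟨m, A₁, hag, Or.inl ⟨hA₁, fun O' hO' π hπ h => hk O' hO' π hπ h⟩⟩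

end Pool.Agent.W2helper61.PF
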