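import Pool.Agent.W2helper61.PF.Stage

/-! One stage of the construction, with an exponential bound. -/

set_option autoImplicit false

namespace Pool.Agent.W2helper61.PF

open Pool.Agent.NPC Pool.Agent.H622R2 Pool.Agent.H620R2.Gauge Pool.Agent.W2helper61.RF

theorem ev_le (P : Polynomial ℕ) (m : ℕ) (hm : 1 ≤ m) :
    P.eval m ≤ P.eval 1 * m ^ P.natDegree := by
  rw [Polynomial.eval_eq_sum_range, Polynomial.eval_eq_sum_range, Finset.sum_mul]
  refine Finset.sum_le_sum fun i hi => ?_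
  rw [Finset.mem_range] at hi
  rw [one_pow, mul_one]
  exact Nat.mul_le_mul_left _ (Nat.pow_le_pow_right hm (by omega))

/-- the equivalence for the universal formula -/
def UHyp (M : Alg) (κ : Alg → ℕ) (μ : Fm) (e : ℕ) (r : Polynomial ℕ) : Prop :=
  μ.Below 3 ∧ ∀ (O : Oracle) (x z : ℕ), r.eval x.size ≤ z.size →
    ((bet (κ M)).sat (nat O) (env [x]) ↔ μ.sat (nat O) (env [e, x, z]))

/-- the conclusion of the stage -/
def StP (κ : Alg → ℕ) (M : Alg) (μ : Fm) (e : ℕ) (r : Polynomial ℕ) (k : ℕ) : Prop :=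
  ∀ (D : Oracle) (K : Set ℕ) (A : Oracle), Legal D K A → ∀ (l N : ℕ) (F : Fm),
    Form D (Tx μ e r) μ F → ∃ (m : ℕ) (A' : Oracle), N ≤ m ∧
      (∀ y : List Bool, y.length < l → A' y = A y) ∧
      ((Legal D K A' ∧ ∀ O', CC.IsComb A' O' → ∀ π,
        (Nat.log 2 (encPf π).length + 1) ^ k ≤ m → ¬ PfOf O' (Th M O') (rfn F μ m) π) ∨
      (Legal D (insert (κ M) K) A' ∧ ∀ O', CC.IsComb A' O' → ∃ π,
        PfOf O' (Th M O') (rfn F μ m) π ∧ ¬ (rfn F μ m).sat (nat O') (fun _ => 0)))

theorem stage2 (hC : Pool.Agent.W2helper54.PF.P_CEL2) (hL : P_LEX) (hT : P_TCH) (hN : P_CNT)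
    (hS : P_SUB) (κ : Alg → ℕ) (M : Alg) (μ : Fm) (e : ℕ) (r : Polynomial ℕ)
    (hUH : UHyp M κ μ e r) : ∃ k, StP κ M μ e r k := by
  classical
  obtain ⟨hμ3, hU⟩ := hUH
  obtain ⟨t, ht⟩ := hT M
  obtain ⟨c, hc⟩ := hN
  obtain ⟨-, s, hs⟩ := hS μ hμ3
  let P : Polynomial ℕ := Polynomial.C e.size + Polynomial.X + (r + 1) +
    (s.comp (Polynomial.C e.size + Polynomial.X + (r + 1)) + 3)
  let W : Polynomial ℕ := 2 * (t + c.comp t * t + t + 2)
  let d : ℕ := W.natDegree + 1
  refine ⟨P.natDegree + 1, fun D K A hA l N F hF => ?_⟩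
  set i := κ M with hi
  set n := N + l + 2 + d ^ (P.natDegree + 1) * P.eval 1 + 1 + d * W.eval 1 with hn
  have hn1 : 1 ≤ n := by omega
  have hnl : l + 2 ≤ n := by omega
  set m := P.eval n with hm
  set X₀ := 2 ^ (n / d) with hX₀
  set L := t.eval X₀ with hLdef
  have hme : m = e.size + n + (r.eval n + 1) + (s.eval (e.size + n + (r.eval n + 1)) + 3) := by
    simp only [hm, P, Polynomial.eval_add, Polynomial.eval_C, Polynomial.eval_X,
      Polynomial.eval_one, Polynomial.eval_comp, Polynomial.eval_ofNat]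
  have h2n : 2 ^ n = 2 * 2 ^ (n - 1) := by
    rw [← pow_succ']
    congr 1
    omega
  have hd : 1 ≤ d := Nat.le_add_left _ _
  have hbud : W.eval X₀ ≤ 2 ^ n := by
    refine (ev_le W X₀ (Nat.one_le_two_pow)).trans ?_
    have h1 : W.eval 1 ≤ n / d := by
      rw [Nat.le_div_iff_mul_le hd, mul_comm]
      omega
    have h2 : n / d < 2 ^ (n / d) := Nat.lt_two_pow_self
    have h3 : n / d * W.natDegree + n / d ≤ n := by
      have h4 := Nat.div_mul_le_self n d
      have h5 : n / d * d = n / d * W.natDegree + n / d := by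
        show n / d * (W.natDegree + 1) = _
        ring
      omega
    calc W.eval 1 * X₀ ^ W.natDegree ≤ 2 ^ (n / d) * (2 ^ (n / d)) ^ W.natDegree :=
          Nat.mul_le_mul_right _ (by omega)
      _ = 2 ^ (n / d * W.natDegree + n / d) := by rw [← pow_mul, ← pow_add, add_comm]
      _ ≤ 2 ^ n := Nat.pow_le_pow_right (by norm_num) h3
  have hshort : ∀ π : List Fm, (Nat.log 2 (encPf π).length + 1) ^ (P.natDegree + 1) ≤ m →
      (encPf π).length ≤ X₀ := by
    intro π hπ
    set lam := Nat.log 2 (encPf π).length + 1 with hlam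
    have h1 : (encPf π).length < 2 ^ lam := Nat.lt_pow_succ_log_self (by norm_num) _
    have h2 : d * lam ≤ n := by
      by_contra h
      push Not at h
      have h3 : n ^ (P.natDegree + 1) ≤ (d * lam) ^ (P.natDegree + 1) :=
        Nat.pow_le_pow_left h.le _
      have h4 : (d * lam) ^ (P.natDegree + 1) ≤
          d ^ (P.natDegree + 1) * (P.eval 1 * n ^ P.natDegree) := by
        rw [mul_pow]
        exact Nat.mul_le_mul_left _ (hπ.trans (ev_le P n hn1))
      have h5 : n * n ^ P.natDegree ≤ d ^ (P.natDegree + 1) * P.eval 1 * n ^ P.natDegree := by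
        calc n * n ^ P.natDegree = n ^ (P.natDegree + 1) := by rw [pow_succ]; ring
          _ ≤ _ := h3.trans h4
          _ = _ := by ring
      have h6 : n ≤ d ^ (P.natDegree + 1) * P.eval 1 :=
        Nat.le_of_mul_le_mul_right h5 (Nat.pow_pos hn1)
      omega
    refine h1.le.trans (Nat.pow_le_pow_right (by norm_num) ?_)
    rw [Nat.le_div_iff_mul_le hd, mul_comm]
    exact h2
  simp only [W, Polynomial.eval_mul, Polynomial.eval_add, Polynomial.eval_ofNat,
    Polynomial.eval_comp] at hbud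
  rw [← hLdef, h2n] at hbud
  have hbud' : L + c.eval L * L + L + 2 ≤ 2 ^ (n - 1) := by omega
  set X := Finset.Ico (2 ^ (n - 1)) (2 ^ n) with hX
  have hXs : ∀ x ∈ X, x.size = n := fun x hx => by
    rw [hX, Finset.mem_Ico] at hx
    exact size_eq_of hn1 hx.1 hx.2
  have hX1 : ∀ x ∈ X, 2 ≤ x := fun x hx => by
    rw [hX, Finset.mem_Ico] at hx
    have h1 : 2 ^ 1 ≤ 2 ^ (n - 1) := Nat.pow_le_pow_right (by norm_num) (by omega)
    omega
  have hXc : X.card = 2 ^ (n - 1) := by
    rw [hX, Nat.card_Ico, h2n]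
    omega
  have hlen : ∀ x ∈ X, ∀ y ∈ row i x, l ≤ y.length := by
    intro x hx y hy
    obtain ⟨w, hw, rfl⟩ := mem_row.mp hy
    have h1 := (cs_eq hC (hX1 x hx) hw (i := i)).2.2
    rw [hXs x hx] at h1
    have h2 : n * 1 ≤ n * (i + 4) := Nat.mul_le_mul_left _ (by omega)
    omega
  obtain ⟨Y, hY1, hY2⟩ := hc L
  obtain ⟨A₁, ⟨hA₁, hag⟩, hlex⟩ := hL CC
    (fun A' => Legal D K A' ∧ ∀ y : List Bool, y.length < l → A' y = A y) X (row i) L Y A
    (fun x hx x' hx' h => disj_row hC (hX1 x hx) (hX1 x' hx') (Or.inr h))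
    (fun A' hA' x hx w hw => ⟨legal_single hC hA'.1 (hX1 x hx) hw, fun y hy => by
      have h1 : y ∉ row i x := fun h => by
        have := hlen x hx y h
        omega
      unfold single
      rw [if_neg h1, hA'.2 y hy]⟩)
    (fun x hx => by
      rw [card_row hC (hX1 x hx)]
      rw [hX, Finset.mem_Ico] at hx
      omega)
    hY2 ⟨hA, fun _ _ => rfl⟩
  have hNm : N ≤ m := by omega
  by_cases hk : ∃ O₁, CC.IsComb A₁ O₁ ∧ ∃ π,
      (Nat.log 2 (encPf π).length + 1) ^ (P.natDegree + 1) ≤ m ∧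
      PfOf O₁ (Th M O₁) (rfn F μ m) π
  · obtain ⟨O₁, hO₁, π, hπ, hP⟩ := hk
    obtain ⟨Q, hQ1, hQ2, hQ3⟩ := ht O₁ _ π hP
    have htL : t.eval (encPf π).length ≤ L := by
      exact ev_mono t (hshort π hπ)
    have hYL : Y.card * L ≤ c.eval L * L := Nat.mul_le_mul_right _ hY1
    obtain ⟨x, hx, hx2⟩ := hlex Q (fun u hu => (hQ2 u hu).trans htL) (by rw [hXc]; omega)
    have hx1 := hX1 x hx
    have hxs := hXs x hx
    have hleg := legal_empt hC hA₁ (i := i) hx1
    refine ⟨m, empt (row i x) A₁, hNm, fun y hy => ?_, Or.inr ⟨hleg, fun O' hO' => ⟨π, hQ3 O'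
      (fun u hu => hx2 O₁ O' hO₁ hO' u hu), fun H => ?_⟩⟩⟩
    · have h1 : y ∉ row i x := fun h => by
        have := hlen x hx y h
        omega
      unfold empt
      rw [if_neg h1, hag y hy]
    · rw [sat_rfn] at H
      set z := 2 ^ r.eval x.size with hz
      set ψ := μ.sub (nums [e, x, z]) with hψ
      have hzs : z.size = r.eval n + 1 := by rw [hz, Nat.size_pow, hxs]
      have hψl : ψ.enc.length ≤ s.eval (e.size + n + (r.eval n + 1)) := by
        have h1 := hs e x z
        rwa [hxs, hzs] at h1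
      have hul : (encPf [ψ]).length = ψ.enc.length + 2 := by
        show (true :: (ψ.enc ++ [false])).length = _
        simp
      have hu : (idx (encPf [ψ])).size ≤ m := by
        have h1 := idx_lt (encPf [ψ])
        have h2 : (idx (encPf [ψ])).size ≤ (encPf [ψ]).length + 1 := Nat.size_le.mpr (by omega)
        omega
      have hst : ∀ y, O' (false :: true :: y) = D y := by
        intro y
        rw [hO'.2.1, hleg.1]
      have hpf : PfOf O' (Tx μ e r) ψ [ψ] :=
        ⟨Prf.ax _ _ Prf.nil (Or.inr (Or.inr ⟨x, hx1, rfl⟩)), rfl⟩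
      have h1 := hF.2.2 O' hst e x z (idx (encPf [ψ])) [ψ] (str_idx _) hpf
      have h2 := H (idx (encPf [ψ])) z x e hu (by omega) (by omega) (by omega) (by
        rw [Fm.sat_congr (nat O') F hF.2.1 (w := env [e, x, z, idx (encPf [ψ])]) (by
          intro j hj
          interval_cases j <;> rfl)]
        exact h1)
      rw [Fm.sat_congr (nat O') μ hμ3 (w := env [e, x, z]) (by
          intro j hj
          interval_cases j <;> rfl), ← hU O' x z (by rw [hxs, hzs]; omega), hC.2.1] at h2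
      obtain ⟨w, hw, h3⟩ := h2
      rw [(cs_eq hC hx1 hw).1, hO'.2.1] at h3
      unfold empt at h3
      rw [if_pos (mem_row.mpr ⟨w, hw, rfl⟩)] at h3
      cases h3
  · push Not at hk
    exact ⟨m, A₁, hNm, hag, Or.inl ⟨hA₁, fun O' hO' π hπ h => hk O' hO' π hπ h⟩⟩

end Pool.Agent.W2helper61.PF
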