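import Pool.Agent.W2helper61.RF.Fin

/-!
# Project PF (MP_5c38ab_lc): finite reflection is strictly weaker than finite consistency

An oracle relative to which Q1 holds, although its listed sufficient condition fails: some theory has
short proofs of the finite consistency sentences of all theories.

The oracle `O` has two columns: `O (false :: y)` is free, and `O (true :: y)` says that `y` is the
code of a true claim, i.e. a (heavily padded) finite consistency sentence.
-/

set_option autoImplicit false

namespace Pool.Agent.W2helper61.PF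

open Pool.Agent.NPC Pool.Agent.H622R2 Pool.Agent.H620R2.Gauge Pool.Agent.W2helper61.RF

/-- The sentence `∀ u (|u| ≤ n → ¬ F(u))`. -/
def con (F : Fm) (n : ℕ) : Fm := .all (.imp (.le (.len (.var 0)) (num n)) (.imp F .bot))

/-- the padded sentence -/
def clm (F : Fm) (n m : ℕ) : Fm := .imp (pad m) (con F n)

/-- falsity of the sentence has certificates of at most `k` strings of length less than `k` -/
def Crt (φ : Fm) (k : ℕ) : Prop := ∀ O : Oracle, ¬ φ.sat (nat O) (fun _ => 0) →
  ∃ Q : Finset (List Bool), Q.card ≤ k ∧ (∀ u ∈ Q, u.length < k) ∧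
    ∀ O' : Oracle, (∀ u ∈ Q, O' u = O u) → ¬ φ.sat (nat O') (fun _ => 0)

/-- the claims -/
def Cl (y : List Bool) : Prop := ∃ (F : Fm) (n m : ℕ), SB true F ∧ F.Below 1 ∧
  y = (clm F n m).enc ∧ n ≤ y.length ∧ 2 ^ F.enc.length ≤ y.length ∧ Crt (con F n) y.length

/-- the claim is true -/
def St (y : List Bool) (O : Oracle) : Prop := ∀ (F : Fm) (n m : ℕ), y = (clm F n m).enc →
  (con F n).sat (nat O) (fun _ => 0)

/-- abstract claims -/
structure CS where
  Cl : List Bool → Prop
  St : List Bool → Oracle → Prop
  crt : ∀ y, Cl y → ∀ O, ¬ St y O → ∃ Q : Finset (List Bool), Q.card ≤ y.length ∧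
    (∀ u ∈ Q, u.length < y.length) ∧ ∀ O' : Oracle, (∀ u ∈ Q, O' u = O u) → ¬ St y O'

/-- `O` is the oracle with the free column `A` -/
def CS.IsComb (C : CS) (A O : Oracle) : Prop :=
  O [] = false ∧ (∀ y, O (false :: y) = A y) ∧ ∀ y, O (true :: y) = true ↔ C.Cl y ∧ C.St y O

/-- `A` with the cells in `R` set to `0` -/
def empt (R : Finset (List Bool)) (A : Oracle) : Oracle := fun y => if y ∈ R then false else A y

/-- `A` with the cells in `R` set to `0`, except for `w`, which is set to `1` -/
def single (R : Finset (List Bool)) (w : List Bool) (A : Oracle) : Oracle :=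
  fun y => if y ∈ R then decide (y = w) else A y

/-- **PIECE LEX (KEY, about 150 lines, abstract, no logic).** `Lg` is the set of the legal free
columns, `R x` for `x ∈ X` are pairwise disjoint rows (sets of strings of the free column); a legal
column stays legal if a row is replaced by a row with exactly one `1`. `Y` contains all claims of
length at most `L`. There is a legal `A₁` such that for every small set `Q` of strings of length at
most `L` some row can be emptied without any change of the oracle on `Q`.

Proof. (0) For every `A` there is exactly one `O` with `IsComb A O` (recursion on the length; existence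
is `RF.fixl`; uniqueness because `St y` only depends on the oracle at shorter strings, by `crt` used in
both directions). Write `cb A` for it. If `A`, `A'` agree at all `y` with `y.length < k` and the claims
of length `< k` have the same values then `cb A`, `cb A'` agree on the strings of length `≤ k`.
(1) Greedy step: list the claims `y ∈ Y` with `y.length ≤ L` as `y_1, ..., y_N` in order of
nondecreasing length. By induction on `j` there are a legal `A` and a finset `Z` of strings of the free
column, `Z.card ≤ j * L`, such that for all legal `A'` which agree with `A` on `Z` and all `j' ≤ j`: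
`St y_j' (cb A') ↔ St y_j' (cb A)`, and such that every `y_j'` which is false for `A` has a certificate
`Q'` (as in `crt`, for `cb A`) whose strings `false :: y` have `y ∈ Z`. Step: if some legal `A'` which
agrees with `A` on `Z` has `¬ St y_j (cb A')`, take this `A'` and add the free part of the certificate to
`Z` (the strings `true :: y'` of the certificate have `y'` shorter than `y_j`, so `y'` is no claim, value
`false`, or `y' = y_j'` with `j' < j`, value constant); otherwise keep `A`, `Z`.
At the end call this `A₁`, `Z`, with `Z.card ≤ Y.card * L`.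
(2) Given `Q`, choose `x ∈ X` such that no string of `Z` is in `R x` and no `false :: y ∈ Q` has
`y ∈ R x` (rows are disjoint, `Q.card + Z.card < X.card`). Let `A₂ = empt (R x) A₁`. Claim: all `y`
with `Cl y`, `y.length ≤ L` have `St y (cb A₂) ↔ St y (cb A₁)`. Otherwise take a shortest such `y`. If `y`
is false for `A₁`, its stored certificate consists of strings in `Z` and of shorter claims, so it is
false for `A₂`, contradiction. So it is true for `A₁` and false for `A₂`; let `Q'` be a certificate for
`cb A₂`, `Q'.card ≤ y.length ≤ L < (R x).card`, so some `w ∈ R x` has `false :: w ∉ Q'`. Let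
`A₃ = single (R x) w A₁`: it is legal and agrees with `A₁` on `Z`, so all claims have the same value for
`A₃` and `A₁`. So `cb A₃`, `cb A₂` agree on `Q'`: strings `false :: v` with `v ≠ w` agree, and the claims
shorter than `y` have the values for `A₁`. So `y` is false for `A₃`, so for `A₁`, contradiction.
(3) So `cb A₂` and `cb A₁` agree on `Q`. -/
def P_LEX : Prop := ∀ (C : CS) (Lg : Oracle → Prop) (X : Finset ℕ) (R : ℕ → Finset (List Bool))
  (L : ℕ) (Y : Finset (List Bool)) (A₀ : Oracle),
  (∀ x ∈ X, ∀ x' ∈ X, x ≠ x' → Disjoint (R x) (R x')) →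
  (∀ A, Lg A → ∀ x ∈ X, ∀ w ∈ R x, Lg (single (R x) w A)) →
  (∀ x ∈ X, L < (R x).card) →
  (∀ y, C.Cl y → y.length ≤ L → y ∈ Y) → Lg A₀ →
  ∃ A₁ : Oracle, Lg A₁ ∧ ∀ Q : Finset (List Bool), (∀ u ∈ Q, u.length ≤ L) →
    Q.card + Y.card * L < X.card →
    ∃ x ∈ X, ∀ O₁ O₂ : Oracle, C.IsComb A₁ O₁ → C.IsComb (empt (R x) A₁) O₂ →
      ∀ u ∈ Q, O₂ u = O₁ u

/-- the theory whose axioms are accepted by `M` -/
def Th (M : Alg) (O : Oracle) : Set Fm := {φ | LH.acc M O φ.enc = [true]}

/-- **PIECE TCH (about 80 lines).** The correctness of a proof depends on few strings. Proof. For one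
run of `M` (`LH.acc M O x = (M.out O x).getD []`, `Alg.run` in `Pool.Agent.H620R2.Gauge.Defs`) take the
set of the questions asked (at most `M.p.eval x.length` of them), filtered by length `≤ qb.eval x.length`,
with `qb` from `LH.acc_congr` (or bound the length of the questions directly). For `Base O φ`
(`RF.Syn`) at most one string `str n`, with `(str n).length ≤ n.size ≤ φ.enc.length` (`length_str_le`,
`enc_num`; constructors `pos`, `neg`, under `gen`). Then induction on `Prf`: every line of the proof is
an axiom (union of the sets) or follows by `mp`. The polynomial `t` only depends on `M`; a line `φ` of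
`π` has `φ.enc.length ≤ (encPf π).length`, and `π.length ≤ (encPf π).length`. -/
def P_TCH : Prop := ∀ M : Alg, ∃ t : Polynomial ℕ, ∀ (O : Oracle) (φ : Fm) (π : List Fm),
  PfOf O (Th M O) φ π →
  ∃ Q : Finset (List Bool), Q.card ≤ t.eval (encPf π).length ∧
    (∀ u ∈ Q, u.length ≤ t.eval (encPf π).length) ∧
    ∀ O' : Oracle, (∀ u ∈ Q, O' u = O u) → PfOf O' (Th M O') φ π

/-- **PIECE CRT (about 90 lines).** Proof. General lemma, by induction on `SB b φ`: there is a
polynomial `q` such that for all `N`, `O` and `v` with `(v i).size ≤ N` for all `i`: if `b = true` and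
`φ.sat (nat O) v`, or `b = false` and `¬ φ.sat (nat O) v`, then there is a finset `Q` with at most
`q.eval N` strings, all of length `≤ q.eval N`, such that all `O'` which agree with `O` on `Q` give the
same truth value. `eq`, `le`, `bot`: no string; `orc t`: the string `str (t.val v)`, length by `tm_size`,
`length_str_le`. `imp`: for `b = true` one of the two, for `b = false` the union. `sball` (`∀ x ≤ |t|`): for
`b = true` the union over the at most `q.eval N + 1` values of `x`; for `b = false` one `x`. `ball` occurs
only for `b = false`: one `x` (its size is bounded by `tm_size`). The values of terms do not depend on the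
oracle (`val_nat`). Compare `bdd_loc` in `RF/NatM.lean`. If `con F n` is false there is `u` with
`u.size ≤ n` and `F.sat (nat O) (cons u fun _ => 0)` (`val_num`). -/
def P_CRT : Prop := ∀ F : Fm, SB true F → F.Below 1 → ∃ q : Polynomial ℕ, ∀ n k : ℕ,
  q.eval n ≤ k → Crt (con F n) k

/-- **PIECE CNT (about 60 lines).** There are few claims: a claim `y` of length at most `L` is
`(clm F n m).enc` with `2 ^ F.enc.length ≤ L`, `n ≤ L` and `m ≤ y.length ≤ L` (`length_pad`), `Fm.enc` is
injective (`Fm.enc_injective`), and there are at most `2 * L` strings `F.enc` with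
`2 ^ F.enc.length ≤ L` (strings of length `≤ k` : fewer than `2 ^ (k + 1)`). So e.g.
`c = 2 * X * (X + 1) * (X + 1) + 2`. -/
def P_CNT : Prop := ∃ c : Polynomial ℕ, ∀ L : ℕ, ∃ Y : Finset (List Bool), Y.card ≤ c.eval L ∧
  ∀ y, Cl y → y.length ≤ L → y ∈ Y

/-- **PIECE SUB (about 70 lines).** Substitution of numerals: closedness, and length. Proof: induction
over terms and formulas, for the substitutions `up^[k] (nums l)`; numerals are closed
(`(num n).sub ρ = num n`, from `num_ind`), and `(num n).enc.length ≤ 15 * n.size + 3` by `enc_num`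
(`n.bits.length = n.size`). -/
def P_SUB : Prop := ∀ μ : Fm, μ.Below 3 →
  (∀ e x z : ℕ, (μ.sub (nums [e, x, z])).Below 0) ∧
  ∃ s : Polynomial ℕ, ∀ e x z : ℕ,
    (μ.sub (nums [e, x, z])).enc.length ≤ s.eval (e.size + x.size + z.size)

/-- the term for the cells: the variables are `w` and `x` -/
def cellT (i : ℕ) : Tm := .add (.smash (.var 1) (num (2 ^ (i + 3))))
  (.add (.mul (.var 1) (.smash (.succ .zero) (.var 1))) (.var 0))

/-- the cells of the row `x` of the block `i`, for `w ≤ x` -/
def cellN (i x w : ℕ) : ℕ := 2 ^ (x.size * (i + 4)) + (x * 2 ^ x.size + w)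

/-- The formula `∃ w ≤ x, α(cell)`. -/
def bet (i : ℕ) : Fm := .imp (.ball (.var 0) (.imp (.orc (cellT i)) .bot)) .bot

/-- **PIECE CEL (about 90 lines).** Facts on the cells. `str n` is defined in
`Pool.Agent.H620R2.Gauge` or `NPC` (unfold it: the binary digits of `n + 1` without the leading `1`, most
significant first). For `x ≥ 1`, `w ≤ x`: `x * 2 ^ x.size + w + 1 ≤ 2 ^ (2 * x.size) ≤ 2 ^ (x.size * (i +
4) - 2)`, so the digits of `cellN i x w + 1` begin with `100`. Injectivity: the length gives
`x.size * (i + 4)`, the rest `x * 2 ^ x.size + w` has size `2 * x.size`, so `x.size`, `i`, `x`, `w`. -/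
def P_CEL : Prop :=
  (∀ i, SB true (bet i) ∧ (bet i).Below 1) ∧
  (∀ (O : Oracle) (i x : ℕ), (bet i).sat (nat O) (env [x]) ↔
    ∃ w ≤ x, O (str (cellN i x w)) = true) ∧
  (∀ i x w : ℕ, 1 ≤ x → w ≤ x → ∃ y : List Bool, str (cellN i x w) = false :: false :: y ∧
    y.length + 2 = x.size * (i + 4)) ∧
  ∀ i x w i' x' w' : ℕ, 1 ≤ x → 1 ≤ x' → w ≤ x → w' ≤ x' →
    str (cellN i x w) = str (cellN i' x' w') → i = i' ∧ x = x' ∧ w = w'

/-- **PIECE SZE (about 80 lines, adapt `main` in `RF/Fin.lean`).** Some theory proves all finite
consistency sentences. `S` consists of the formulas `φ` with `O (true :: φ.enc) = true`; they are true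
padded claims. For consistent `A` no `F(u)` is true, so `con F n` is true and
`(clm F n m).enc` is a claim for `m = q.eval n + n + 2 ^ F.enc.length` (`P_CRT`), and the proof has three
lines `con F n`, `clm F n m`, `pad m` (`pad_lax`). -/
def P_SZE : Prop := P_CRT → ∀ (O : Oracle), O [] = false →
  (∀ y, O (true :: y) = true ↔ Cl y ∧ St y O) →
  ∃ S : Set Fm, InT O S ∧ ∀ A : Set Fm, Cons O A → ∀ F : Fm, SB true F → F.Below 1 →
    (∀ u : ℕ, F.sat (nat O) (env [u]) → ∃ π : List Fm, PfOf O A .bot π) →
    ∃ p : Polynomial ℕ, ∀ n : ℕ, ∃ π : List Fm, PfOf O S (con F n) π ∧ (encPf π).length ≤ p.eval n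

/-- **PIECE REF (about 50 lines, adapt `rfn_true` in `RF/Fin.lean`).** A theory which proves a false
reflection sentence has no model: bounded formulas are absolute (`bas_of`, `B.abs`, `B.num`, `B.len`,
`B.le_iff`, `orc_of`). -/
def P_REF : Prop := ∀ (O : Oracle) (S : Set Fm) (F μ : Fm) (m : ℕ) (π : List Fm), Bdd F →
  F.Below 4 → Bdd μ → μ.Below 3 → PfOf O S (rfn F μ m) π →
  ¬ (rfn F μ m).sat (nat O) (fun _ => 0) → ¬ Cons O S

end Pool.Agent.W2helper61.PF
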